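import Mathlib

/-!
Definitions for the rotation-hyperbolic cocycle `x ↦ A_θ(x)` over the two-sided full shift on two
symbols (`true` is the symbol `1`, `false` is the symbol `2`).
-/

set_option autoImplicit false

namespace Pool.Agent.Q67.RC

open Real

/-- The left shift `σ` on two-sided sequences. -/
def shift (x : ℤ → Bool) : ℤ → Bool := fun i => x (i + 1)

/-- `A_θ(x)`: the matrix `diag (2, 1/2)` if `x 0` is the symbol `1` (`true`), the rotation `R_θ` if
`x 0` is the symbol `2` (`false`). -/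
noncomputable def A (θ : ℝ) (x : ℤ → Bool) : Matrix (Fin 2) (Fin 2) ℝ :=
  if x 0 = true then !![2, 0; 0, 1 / 2] else !![cos θ, -sin θ; sin θ, cos θ]

/-- `A_{θ,n}(x) = A_θ(σ^{n-1} x) ⋯ A_θ(σ x) A_θ(x)` for `n ≥ 0`. -/
noncomputable def fiberProd (θ : ℝ) (x : ℤ → Bool) : ℕ → Matrix (Fin 2) (Fin 2) ℝ
  | 0 => 1
  | n + 1 => A θ (shift^[n] x) * fiberProd θ x n

/-- `B(θ, κ)`: the sequences `x` such that all entries of `A_{θ,n}(σ^m x)`, `m ∈ ℤ`, `n ≥ 0`, are
bounded by `κ` in absolute value. -/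
def B (θ κ : ℝ) : Set (ℤ → Bool) :=
  {x | ∀ (m : ℤ) (n : ℕ) (i j : Fin 2), |fiberProd θ (fun k => x (k + m)) n i j| ≤ κ}

/-- `h(θ)`: the supremum over `κ` of the topological entropy (Bowen-Dinaburg, Mathlib's
`Dynamics.coverEntropy`, for the product uniformity) of the shift on the compact invariant set
`B(θ, κ)`; a value in `EReal`. -/
noncomputable def h (θ : ℝ) : EReal := ⨆ κ : ℕ, Dynamics.coverEntropy shift (B θ κ)

end Pool.Agent.Q67.RC
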