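import Pool.Agent.Q67.RC.Defs

/-!
Two estimates for the topological entropy (`Dynamics.coverEntropy`) of the two-sided full shift on
two symbols on a subset: a lower bound from free blocks at multiples of `L`, and the value zero for
sets of sequences with a bounded number of symbols `true`.
-/

set_option autoImplicit false

namespace Pool.Agent.Q67.RC

open Filter Topology Uniformity Dynamics

theorem shift_iter (n : ℕ) (x : ℤ → Bool) (i : ℤ) : (shift^[n] x) i = x (i + n) := by
  induction n generalizing x with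
  | zero => simp
  | succ n ih =>
    rw [Function.iterate_succ_apply, ih]
    unfold shift
    push_cast
    congr 1
    ring

/-- agreement on `[-M, M]` -/
def VM (M : ℕ) : SetRel (ℤ → Bool) (ℤ → Bool) :=
  {p | ∀ i : ℤ, -(M : ℤ) ≤ i → i ≤ M → p.1 i = p.2 i}

theorem VM_mem (M : ℕ) : VM M ∈ 𝓤 (ℤ → Bool) := by
  have h1 : VM M = ⋂ i ∈ Finset.Icc (-(M : ℤ)) M, {p : (ℤ → Bool) × (ℤ → Bool) | p.1 i = p.2 i} := by
    ext p
    simp only [Set.mem_iInter, Finset.mem_Icc]
    constructor
    · intro h i hi
      exact h i hi.1 hi.2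
    · intro h i h1 h2
      exact h i ⟨h1, h2⟩
  rw [h1, Filter.biInter_finset_mem]
  intro i _
  rw [Pi.uniformity]
  apply Filter.mem_iInf_of_mem i
  rw [Filter.mem_comap]
  refine ⟨{p : Bool × Bool | p.1 = p.2}, ?_, fun p hp => hp⟩
  rw [discreteUniformity_iff_eq_principal_setRelId.1 inferInstance]
  intro p hp
  exact hp

theorem exists_VM_subset (U : SetRel (ℤ → Bool) (ℤ → Bool)) (hU : U ∈ 𝓤 (ℤ → Bool)) :
    ∃ M : ℕ, VM M ⊆ U := by
  rw [Pi.uniformity, Filter.mem_iInf] at hU
  obtain ⟨I, hI, V, hV, rfl⟩ := hU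
  obtain ⟨M, hM⟩ : ∃ M : ℕ, ∀ i ∈ I, -(M : ℤ) ≤ i ∧ i ≤ M := by
    refine ⟨hI.toFinset.sup fun i => i.natAbs, fun i hi => ?_⟩
    have h1 : i.natAbs ≤ hI.toFinset.sup fun i => i.natAbs :=
      Finset.le_sup (f := fun i : ℤ => i.natAbs) (hI.mem_toFinset.2 hi)
    omega
  refine ⟨M, fun p hp => ?_⟩
  rw [Set.mem_iInter]
  intro i
  obtain ⟨W, hW, hWV⟩ := Filter.mem_comap.1 (hV i)
  apply hWV
  show (p.1 i, p.2 i) ∈ W
  rw [hp i (hM i i.2).1 (hM i i.2).2]
  exact refl_mem_uniformity hW

theorem coverEntropy_lower (L n : ℕ) (hn : n ≤ L) (hL : 0 < L) (F : Set (ℤ → Bool))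
    (P : ℕ → (ℕ → Fin n → Bool) → (ℤ → Bool)) (hF : ∀ q f, P q f ∈ F)
    (hP : ∀ q f, ∀ a < q, ∀ b : Fin n, P q f ((a * L + b : ℕ) : ℤ) = f a b) :
    ((n * Real.log 2 / L : ℝ) : EReal) ≤ coverEntropy shift F := by
  classical
  have key : ∀ q : ℕ, ((2 : ENNReal) ^ n) ^ q ≤ ((netMaxcard shift F (VM 0) (L * q) : ℕ∞) : ENNReal) := by
    intro q
    let ext : (Fin q → Fin n → Bool) → ℕ → Fin n → Bool :=
      fun f a => if h : a < q then f ⟨a, h⟩ else fun _ => false
    have hinj : Function.Injective fun f : Fin q → Fin n → Bool => P q (ext f) := by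
      intro f g hfg
      funext a b
      have h1 := hP q (ext f) a a.2 b
      have h2 := hP q (ext g) a a.2 b
      have h3 : P q (ext f) = P q (ext g) := hfg
      rw [h3, h2] at h1
      have e1 : ext f a b = f a b := by simp [ext, a.2]
      have e2 : ext g a b = g a b := by simp [ext, a.2]
      rw [e1, e2] at h1
      exact h1.symm
    let s : Finset (ℤ → Bool) := Finset.univ.image fun f : Fin q → Fin n → Bool => P q (ext f)
    have hs : s.card = (2 ^ n) ^ q := by
      rw [Finset.card_image_of_injective _ hinj]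
      simp
    have hnet : IsDynNetIn shift F (VM 0) (L * q) (s : Set (ℤ → Bool)) := by
      refine ⟨?_, ?_⟩
      · intro x hx
        rw [Finset.mem_coe, Finset.mem_image] at hx
        obtain ⟨f, _, rfl⟩ := hx
        exact hF _ _
      · intro x hx y hy hxy
        rw [Function.onFun, Set.disjoint_left]
        intro z hzx hzy
        apply hxy
        rw [Finset.mem_coe, Finset.mem_image] at hx hy
        obtain ⟨f, _, rfl⟩ := hx
        obtain ⟨g, _, rfl⟩ := hy
        rw [mem_ball_dynEntourage] at hzx hzy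
        have hfg : f = g := by
          funext a b
          have hlt : (a : ℕ) * L + b < L * q := by
            have h1 : (a : ℕ) + 1 ≤ q := a.2
            have h2 : (b : ℕ) < L := lt_of_lt_of_le b.2 hn
            have h3 : ((a : ℕ) + 1) * L ≤ q * L := Nat.mul_le_mul_right L h1
            nlinarith
          have h1 := hzx _ hlt 0 (by simp) (by simp)
          have h2 := hzy _ hlt 0 (by simp) (by simp)
          simp only [shift_iter, zero_add] at h1 h2
          rw [hP q (ext f) a a.2 b] at h1
          rw [hP q (ext g) a a.2 b] at h2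
          have e1 : ext f a b = f a b := by simp [ext, a.2]
          have e2 : ext g a b = g a b := by simp [ext, a.2]
          rw [e1] at h1
          rw [e2] at h2
          rw [h1, h2]
        rw [hfg]
    have h1 := hnet.card_le_netMaxcard
    rw [hs] at h1
    have h2 := ENat.toENNReal_mono h1
    refine le_trans (le_of_eq ?_) h2
    push_cast
    rfl
  have hmono : Monotone fun m ↦ ((netMaxcard shift F (VM 0) m : ℕ∞) : ENNReal) :=
    fun _ _ k_m ↦ ENat.toENNReal_mono (netMaxcard_monotone_time shift F (VM 0) k_m)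
  have h1 := hmono.expGrowthSup_comp_mul hL.ne'
  have h2 : ENNReal.log ((2 : ENNReal) ^ n) ≤
      (L : EReal) * netEntropyEntourage shift F (VM 0) := by
    unfold netEntropyEntourage
    rw [← h1, ← ExpGrowth.expGrowthSup_pow]
    exact ExpGrowth.expGrowthSup_monotone key
  have h3 : ENNReal.log ((2 : ENNReal) ^ n) = ((n * Real.log 2 : ℝ) : EReal) := by
    have : (2 : ENNReal) ^ n = ENNReal.ofReal (2 ^ n) := by
      rw [ENNReal.ofReal_pow (by norm_num)]
      norm_num
    rw [this, ENNReal.log_ofReal_of_pos (by positivity), Real.log_pow]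
  have h4 : ((n * Real.log 2 / L : ℝ) : EReal) ≤ netEntropyEntourage shift F (VM 0) := by
    rw [h3] at h2
    rw [EReal.coe_div]
    rw [mul_comm] at h2
    have := (EReal.div_le_iff_le_mul (a := ((n * Real.log 2 : ℝ) : EReal)) (b := (L : EReal))
      (c := netEntropyEntourage shift F (VM 0)) (by exact_mod_cast hL)
      (EReal.natCast_ne_top L)).2 (by rw [mul_comm]; exact h2)
    exact this
  exact h4.trans (netEntropyEntourage_le_coverEntropy shift F (VM_mem 0))

/-- polynomials do not grow exponentially -/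
theorem expGrowthSup_poly_le (c K : ℕ) (u : ℕ → ENNReal)
    (hu : ∀ n, u n ≤ (((n + c) ^ K : ℕ) : ENNReal)) : ExpGrowth.expGrowthSup u ≤ 0 := by
  rw [ExpGrowth.expGrowthSup_le_iff]
  intro b hb
  obtain ⟨b', hb1, hb2⟩ := EReal.lt_iff_exists_real_btwn.1 hb
  have hb0 : 0 < b' := by exact_mod_cast hb1
  have h1 : ∀ᶠ x : ℝ in atTop, |x ^ K| ≤ |Real.exp (b' / 2 * x)| := by
    have := (isLittleO_pow_exp_pos_mul_atTop K (half_pos hb0)).bound (c := 1) one_pos
    filter_upwards [this] with x hx
    simpa using hx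
  have h2 : Tendsto (fun n : ℕ => (n : ℝ) + c) atTop atTop :=
    tendsto_atTop_add_const_right _ _ tendsto_natCast_atTop_atTop
  filter_upwards [h2.eventually h1, eventually_ge_atTop c] with n hn hnc
  refine (hu n).trans ?_
  have h3 : (((n + c) ^ K : ℕ) : ℝ) ≤ Real.exp (b' * n) := by
    rw [abs_of_nonneg (by positivity), abs_of_pos (Real.exp_pos _)] at hn
    push_cast
    refine hn.trans ?_
    rw [Real.exp_le_exp]
    have : (c : ℝ) ≤ n := by exact_mod_cast hnc
    nlinarith
  have h4 : (((n + c) ^ K : ℕ) : ENNReal) ≤ ENNReal.ofReal (Real.exp (b' * n)) := by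
    rw [← ENNReal.ofReal_natCast]
    exact ENNReal.ofReal_le_ofReal h3
  refine h4.trans ?_
  have h5 : ENNReal.ofReal (Real.exp (b' * n)) = EReal.exp (((b' * n : ℝ)) : EReal) := by
    rw [EReal.exp_coe]
  rw [h5, EReal.coe_mul]
  apply EReal.exp_monotone
  have h6 : (((n : ℝ)) : EReal) = (n : EReal) := by norm_cast
  rw [h6]
  exact mul_le_mul_of_nonneg_right hb2.le (by exact_mod_cast Nat.zero_le n)

theorem coverEntropy_few (K : ℕ) (F : Set (ℤ → Bool))
    (hF : ∀ x ∈ F, ∀ (m : ℤ) (n : ℕ),
      ((Finset.range n).filter fun i : ℕ => x (i + m) = true).card ≤ K) :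
    coverEntropy shift F ≤ 0 := by
  classical
  refine iSup₂_le fun U hU => ?_
  obtain ⟨M, hM⟩ := exists_VM_subset U hU
  refine (coverEntropyEntourage_antitone shift F hM).trans ?_
  apply expGrowthSup_poly_le (2 * M + 2) K
  intro n
  have hcover : ∃ s : Finset (ℤ → Bool), IsDynCoverOf shift F (VM M) n s ∧
      s.card ≤ (n + (2 * M + 2)) ^ K := by
    obtain ⟨W, hW⟩ : ∃ W, W = n + (2 * M + 1) := ⟨_, rfl⟩
    let pt : (Fin K → ℕ) → (ℤ → Bool) := fun f i => decide (∃ j, (f j : ℤ) = i + M)
    refine ⟨(Fintype.piFinset fun _ : Fin K => Finset.range (W + 1)).image pt, ?_, ?_⟩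
    · intro z hz
      let S := (Finset.range W).filter fun a : ℕ => z (a + -(M : ℤ)) = true
      have hS : S.card ≤ K := hF z hz (-(M : ℤ)) W
      let f : Fin K → ℕ := fun j => if h : (j : ℕ) < S.card then
        ((S.equivFin.symm ⟨j, h⟩ : S) : ℕ) else W
      have hf : ∀ j, f j ∈ Finset.range (W + 1) := by
        intro j
        rw [Finset.mem_range]
        by_cases h : (j : ℕ) < S.card
        · have h1 : f j = ((S.equivFin.symm ⟨j, h⟩ : S) : ℕ) := dif_pos h
          rw [h1]
          have h2 := (S.equivFin.symm ⟨j, h⟩ : S).2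
          have h3 := (Finset.mem_filter.1 h2).1
          rw [Finset.mem_range] at h3
          omega
        · have h1 : f j = W := dif_neg h
          omega
      refine ⟨pt f, ?_, ?_⟩
      · rw [Finset.mem_coe, Finset.mem_image]
        exact ⟨f, Fintype.mem_piFinset.2 hf, rfl⟩
      · rw [mem_dynEntourage]
        intro k hk i hi1 hi2
        show (shift^[k] z) i = (shift^[k] (pt f)) i
        rw [shift_iter, shift_iter]
        obtain ⟨a, ha⟩ : ∃ a : ℕ, (a : ℤ) = i + k + M := ⟨(i + k + M).toNat, by omega⟩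
        have haW : a < W := by omega
        have hik : i + (k : ℤ) = a + -(M : ℤ) := by omega
        have hpt : pt f (i + k) = decide (∃ j, f j = a) := by
          show decide (∃ j, (f j : ℤ) = i + k + M) = decide (∃ j, f j = a)
          rw [← ha]
          congr 1
          simp
        rw [hpt, hik]
        by_cases hz : z (a + -(M : ℤ)) = true
        · rw [hz]
          symm
          rw [decide_eq_true_iff]
          have haS : a ∈ S := Finset.mem_filter.2 ⟨Finset.mem_range.2 haW, hz⟩
          obtain ⟨t, ht⟩ : ∃ t, t = S.equivFin ⟨a, haS⟩ := ⟨_, rfl⟩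
          refine ⟨⟨t, lt_of_lt_of_le t.2 hS⟩, ?_⟩
          have h1 : f ⟨t, lt_of_lt_of_le t.2 hS⟩ = ((S.equivFin.symm ⟨t, t.2⟩ : S) : ℕ) :=
            dif_pos t.2
          rw [h1]
          have h2 : (⟨(t : ℕ), t.2⟩ : Fin S.card) = t := rfl
          rw [h2, ht, Equiv.symm_apply_apply]
        · have hz' : z (a + -(M : ℤ)) = false := by simpa using hz
          rw [hz']
          symm
          rw [decide_eq_false_iff_not]
          rintro ⟨j, hj⟩
          by_cases h : (j : ℕ) < S.card
          · have h1 : f j = ((S.equivFin.symm ⟨j, h⟩ : S) : ℕ) := dif_pos h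
            have h2 := (S.equivFin.symm ⟨j, h⟩ : S).2
            rw [← h1, hj] at h2
            exact hz (Finset.mem_filter.1 h2).2
          · have h1 : f j = W := dif_neg h
            omega
    · refine Finset.card_image_le.trans ?_
      rw [Fintype.card_piFinset]
      simp only [Finset.card_range, Finset.prod_const, Finset.card_univ, Fintype.card_fin]
      rw [hW]
      apply Nat.pow_le_pow_left
      omega
  obtain ⟨s, hs1, hs2⟩ := hcover
  have h1 := hs1.coverMincard_le_card
  have h2 := ENat.toENNReal_mono h1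
  refine h2.trans ?_
  rw [ENat.toENNReal_coe]
  exact_mod_cast hs2

end Pool.Agent.Q67.RC
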