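import Pool.Agent.Q67.RC.Ret
import Pool.Agent.Q67.RC.Ent

/-!
Construction of many fiberwise bounded orbits for a small rotation.
-/

set_option autoImplicit false

namespace Pool.Agent.Q67.RC

open Filter Topology Uniformity Dynamics Real

/-- the orbit of a vector along a one-sided sequence -/
noncomputable def orb (θ : ℝ) (y : ℕ → Bool) : ℕ → ℝ × ℝ → ℝ × ℝ
  | 0, v => v
  | n + 1, v => st θ (y n) (orb θ y n v)

theorem orb_add (θ : ℝ) (y : ℕ → Bool) (a b : ℕ) (v : ℝ × ℝ) :
    orb θ y (a + b) v = orb θ (fun k => y (a + k)) b (orb θ y a v) := by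
  induction b with
  | zero => rfl
  | succ b ih =>
    show st θ (y (a + b)) (orb θ y (a + b) v) = _
    rw [ih]
    rfl

theorem fiberProd_orb (θ : ℝ) (x : ℤ → Bool) (n : ℕ) :
    (fiberProd θ x n 0 0, fiberProd θ x n 1 0) = orb θ (fun k => x k) n (1, 0) ∧
    (fiberProd θ x n 0 1, fiberProd θ x n 1 1) = orb θ (fun k => x k) n (0, 1) := by
  induction n with
  | zero =>
    constructor
    · simp [fiberProd, orb]
    · simp [fiberProd, orb]
  | succ n ih =>
    have hx : (shift^[n] x) 0 = x n := by rw [shift_iter]; simp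
    have key : ∀ j, (fiberProd θ x (n + 1) 0 j, fiberProd θ x (n + 1) 1 j) =
        st θ (x n) (fiberProd θ x n 0 j, fiberProd θ x n 1 j) := by
      intro j
      show ((A θ (shift^[n] x) * fiberProd θ x n) 0 j, (A θ (shift^[n] x) * fiberProd θ x n) 1 j) = _
      rw [Matrix.mul_apply, Matrix.mul_apply, Fin.sum_univ_two, Fin.sum_univ_two]
      unfold A st
      rw [hx]
      by_cases hb : x n = true
      · simp only [hb, if_true]
        ext
        · simp
        · simp
          ring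
      · simp only [hb]
        ext
        · simp
          ring
        · simp
    rw [key, key, ih.1, ih.2]
    exact ⟨rfl, rfl⟩

theorem dt_orb (θ : ℝ) (y : ℕ → Bool) (n : ℕ) (v u : ℝ × ℝ) :
    dt (orb θ y n v) (orb θ y n u) = dt v u := by
  induction n with
  | zero => rfl
  | succ n ih =>
    show dt (st θ (y n) (orb θ y n v)) (st θ (y n) (orb θ y n u)) = _
    rw [dt_st, ih]

theorem orb_lc (θ : ℝ) (y : ℕ → Bool) (n : ℕ) (a : ℝ) (v : ℝ × ℝ) (b : ℝ) (u : ℝ × ℝ) :
    orb θ y n (lc a v b u) = lc a (orb θ y n v) b (orb θ y n u) := by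
  induction n with
  | zero => rfl
  | succ n ih =>
    show st θ (y n) (orb θ y n (lc a v b u)) = _
    rw [ih, st_lc]
    rfl

theorem orb_false (θ : ℝ) (y : ℕ → Bool) (n : ℕ) (hy : ∀ k < n, y k = false) (v : ℝ × ℝ) :
    N (orb θ y n v) = N v := by
  induction n with
  | zero => rfl
  | succ n ih =>
    show N (st θ (y n) (orb θ y n v)) = _
    rw [hy n (Nat.lt_succ_self n), N_st_false]
    exact ih fun k hk => hy k (by omega)

theorem orb_run (θ : ℝ) (w : List Bool) (y : ℕ → Bool) (hy : ∀ i, y i = w.getD i false)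
    (m : ℕ) (hm : m ≤ w.length) (v : ℝ × ℝ) : orb θ y m v = run θ (w.take m) v := by
  induction m with
  | zero => simp [orb]
  | succ m ih =>
    have hlt : m < w.length := hm
    rw [List.take_succ_eq_append_getElem hlt, run_append, ← ih (by omega)]
    show st θ (y m) (orb θ y m v) = _
    rw [run_cons, run_nil, hy m, List.getD_eq_getElem _ _ hlt]

/-- if all prefixes keep the two basis vectors bounded, then all factors are bounded -/
theorem N_tail_le (θ : ℝ) (y : ℕ → Bool) (C : ℝ) (hC1 : 1 ≤ C)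
    (h1 : ∀ m, N (orb θ y m (1, 0)) ≤ C) (h2 : ∀ m, N (orb θ y m (0, 1)) ≤ C)
    (m n : ℕ) (v : ℝ × ℝ) : N (orb θ (fun k => y (m + k)) n v) ≤ 4 * C ^ 2 * N v := by
  obtain ⟨g1, hg1⟩ : ∃ g1, g1 = orb θ y m (1, 0) := ⟨_, rfl⟩
  obtain ⟨g2, hg2⟩ : ∃ g2, g2 = orb θ y m (0, 1) := ⟨_, rfl⟩
  have hd : dt g1 g2 = 1 := by
    rw [hg1, hg2, dt_orb]
    unfold dt
    norm_num
  have hv : v = lc (dt v g2) g1 (-(dt v g1)) g2 := by
    unfold dt at hd ⊢
    unfold lc
    ext
    · simp only
      linear_combination (-v.1) * hd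
    · simp only
      linear_combination (-v.2) * hd
  have e1 : orb θ (fun k => y (m + k)) n g1 = orb θ y (m + n) (1, 0) := by
    rw [orb_add, hg1]
  have e2 : orb θ (fun k => y (m + k)) n g2 = orb θ y (m + n) (0, 1) := by
    rw [orb_add, hg2]
  have hb1 : dt v g2 ^ 2 ≤ N v * C := by
    have : dt v g2 ^ 2 ≤ N v * N g2 := by
      unfold dt N
      nlinarith [sq_nonneg (v.1 * g2.1 + v.2 * g2.2)]
    refine this.trans (mul_le_mul_of_nonneg_left ?_ (N_nonneg v))
    rw [hg2]
    exact h2 m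
  have hb2 : (-(dt v g1)) ^ 2 ≤ N v * C := by
    have : (-(dt v g1)) ^ 2 ≤ N v * N g1 := by
      unfold dt N
      nlinarith [sq_nonneg (v.1 * g1.1 + v.2 * g1.2)]
    refine this.trans (mul_le_mul_of_nonneg_left ?_ (N_nonneg v))
    rw [hg1]
    exact h1 m
  rw [hv, orb_lc, e1, e2, ← hv]
  refine (N_lc_le _ _ _ _).trans ?_
  have hvC : 0 ≤ N v * C := by
    have := N_nonneg v
    positivity
  have i1 : dt v g2 ^ 2 * N (orb θ y (m + n) (1, 0)) ≤ N v * C * C :=
    mul_le_mul hb1 (h1 _) (N_nonneg _) hvC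
  have i2 : (-(dt v g1)) ^ 2 * N (orb θ y (m + n) (0, 1)) ≤ N v * C * C :=
    mul_le_mul hb2 (h2 _) (N_nonneg _) hvC
  nlinarith

theorem mem_B (θ : ℝ) (x : ℤ → Bool) (K : ℝ) (hK : 1 ≤ K) (hneg : ∀ i : ℤ, i < 0 → x i = false)
    (hx : ∀ (m n : ℕ) (v : ℝ × ℝ), N (orb θ (fun k => x ((m + k : ℕ) : ℤ)) n v) ≤ K * N v) :
    x ∈ B θ K := by
  intro m n
  have key : ∀ v, N (orb θ (fun k : ℕ => x ((k : ℤ) + m)) n v) ≤ K * N v := by
    intro v
    have hNv := N_nonneg v
    rcases le_or_gt 0 m with hm | hm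
    · obtain ⟨m', rfl⟩ := Int.eq_ofNat_of_zero_le hm
      have e : (fun k : ℕ => x ((k : ℤ) + (m' : ℤ))) = fun k : ℕ => x ((m' + k : ℕ) : ℤ) := by
        funext k
        congr 1
        push_cast
        ring
      rw [e]
      exact hx m' n v
    · obtain ⟨p, hp⟩ : ∃ p : ℕ, m = -(p : ℤ) := ⟨m.natAbs, by omega⟩
      rcases le_total n p with hnp | hnp
      · rw [orb_false _ _ _ fun k hk => hneg _ (by omega)]
        nlinarith
      · obtain ⟨b, rfl⟩ := Nat.exists_eq_add_of_le hnp
        rw [orb_add]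
        have e : (fun k : ℕ => x (((p + k : ℕ) : ℤ) + m)) = fun k : ℕ => x ((0 + k : ℕ) : ℤ) := by
          funext k
          congr 1
          rw [hp]
          push_cast
          ring
        rw [e]
        refine (hx 0 b _).trans ?_
        rw [orb_false _ _ _ fun k hk => hneg _ (by omega)]
  obtain ⟨f1, f2⟩ := fiberProd_orb θ (fun k => x (k + m)) n
  have g1 := key (1, 0)
  have g2 := key (0, 1)
  have hN1 : N (1, 0) = 1 := by unfold N; norm_num
  have hN2 : N (0, 1) = 1 := by unfold N; norm_num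
  rw [hN1, ← f1] at g1
  rw [hN2, ← f2] at g2
  unfold N at g1 g2
  simp only at g1 g2
  have habs : ∀ a b : ℝ, a ^ 2 + b ^ 2 ≤ K * 1 → |a| ≤ K ∧ |b| ≤ K := by
    intro a b hab
    have hK2 : K * 1 ≤ K ^ 2 := by nlinarith
    constructor
    · apply abs_le_of_sq_le_sq _ (by linarith)
      nlinarith [sq_nonneg b]
    · apply abs_le_of_sq_le_sq _ (by linarith)
      nlinarith [sq_nonneg a]
  obtain ⟨k1, k2⟩ := habs _ _ g1
  obtain ⟨k3, k4⟩ := habs _ _ g2
  intro i j
  fin_cases i <;> fin_cases j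
  · exact k1
  · exact k3
  · exact k2
  · exact k4

open Classical in
/-- the return word -/
noncomputable def retw (θ : ℝ) (n : ℕ) (v u : ℝ × ℝ) : List Bool :=
  if h : ∃ w : List Bool, w.length = 12 * n ∧ N (run θ w v) ≤ 25 ∧ N (run θ w u) ≤ 25 then
    h.choose
  else List.replicate (12 * n) false

theorem retw_length (θ : ℝ) (n : ℕ) (v u : ℝ × ℝ) : (retw θ n v u).length = 12 * n := by
  unfold retw
  split_ifs with h
  · exact h.choose_spec.1
  · simp

/-- the word made of `q` blocks, each a free word followed by its return word -/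
noncomputable def pre (θ : ℝ) (n : ℕ) (f : ℕ → Fin n → Bool) : ℕ → List Bool
  | 0 => []
  | q + 1 => pre θ n f q ++ (List.ofFn (f q) ++
      retw θ n (run θ (pre θ n f q ++ List.ofFn (f q)) (1, 0))
        (run θ (pre θ n f q ++ List.ofFn (f q)) (0, 1)))

theorem pre_length (θ : ℝ) (n : ℕ) (f : ℕ → Fin n → Bool) (q : ℕ) :
    (pre θ n f q).length = q * (13 * n) := by
  induction q with
  | zero => simp [pre]
  | succ q ih =>
    rw [pre, List.length_append, List.length_append, List.length_ofFn, retw_length, ih]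
    ring

theorem pre_get (θ : ℝ) (n : ℕ) (f : ℕ → Fin n → Bool) (q a : ℕ) (ha : a < q) (b : Fin n) :
    (pre θ n f q).getD (a * (13 * n) + b) false = f a b := by
  induction q with
  | zero => omega
  | succ q ih =>
    rw [pre]
    have hb := b.2
    rcases Nat.lt_succ_iff_lt_or_eq.1 ha with h | h
    · have hlt : a * (13 * n) + b < (pre θ n f q).length := by
        rw [pre_length]
        have : (a + 1) * (13 * n) ≤ q * (13 * n) := Nat.mul_le_mul_right _ h
        nlinarith
      rw [List.getD_append _ _ _ _ hlt]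
      exact ih h
    · subst h
      rw [List.getD_append_right _ _ _ _ (by rw [pre_length]; omega), pre_length,
        Nat.add_sub_cancel_left, List.getD_append _ _ _ _ (by rw [List.length_ofFn]; exact hb),
        List.getD_eq_getElem _ _ (by rw [List.length_ofFn]; exact hb), List.getElem_ofFn]

theorem pre_good (θ : ℝ) (hθ : 0 < θ) (hθ1 : θ ≤ 1 / 1000) (n : ℕ) (hn : n = ⌈1 / θ⌉₊)
    (f : ℕ → Fin n → Bool) (q : ℕ) :
    N (run θ (pre θ n f q) (1, 0)) ≤ 25 ∧ N (run θ (pre θ n f q) (0, 1)) ≤ 25 := by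
  induction q with
  | zero =>
    simp only [pre, run_nil]
    unfold N
    norm_num
  | succ q ih =>
    have hfree : ∀ v, N (run θ (pre θ n f q) v) ≤ 25 →
        N (run θ (pre θ n f q ++ List.ofFn (f q)) v) ≤ 25 * 4 ^ n := by
      intro v hv
      rw [run_append]
      refine (N_run_le _ _ _).trans ?_
      rw [List.length_ofFn, mul_comm]
      exact mul_le_mul_of_nonneg_right hv (by positivity)
    have hret := ret θ hθ hθ1 n hn (run θ (pre θ n f q ++ List.ofFn (f q)) (1, 0))
      (run θ (pre θ n f q ++ List.ofFn (f q)) (0, 1))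
      (by rw [dt_run]; unfold dt; norm_num) (hfree _ ih.1) (hfree _ ih.2)
    rw [pre, ← List.append_assoc, run_append, run_append _ (pre θ n f q ++ List.ofFn (f q))]
    unfold retw
    rw [dif_pos hret]
    exact hret.choose_spec.2

theorem pre_take (θ : ℝ) (hθ : 0 < θ) (hθ1 : θ ≤ 1 / 1000) (n : ℕ) (hn : n = ⌈1 / θ⌉₊)
    (f : ℕ → Fin n → Bool) (q m : ℕ) :
    N (run θ ((pre θ n f q).take m) (1, 0)) ≤ 25 * 4 ^ (13 * n) ∧
    N (run θ ((pre θ n f q).take m) (0, 1)) ≤ 25 * 4 ^ (13 * n) := by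
  induction q with
  | zero =>
    have h1 : (1 : ℝ) ≤ 4 ^ (13 * n) := one_le_pow₀ (by norm_num)
    simp only [pre, List.take_nil, run_nil]
    unfold N
    constructor <;> simp only <;> linarith
  | succ q ih =>
    rw [pre, List.take_append]
    rcases le_total m (pre θ n f q).length with h | h
    · rw [Nat.sub_eq_zero_of_le h, List.take_zero, List.append_nil]
      exact ih
    · rw [List.take_of_length_le h]
      obtain ⟨W, hW⟩ : ∃ W, W = (List.take (m - (pre θ n f q).length) (List.ofFn (f q) ++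
          retw θ n (run θ (pre θ n f q ++ List.ofFn (f q)) (1, 0))
            (run θ (pre θ n f q ++ List.ofFn (f q)) (0, 1)))) := ⟨_, rfl⟩
      rw [← hW]
      have hWl : W.length ≤ 13 * n := by
        rw [hW, List.length_take, List.length_append, List.length_ofFn, retw_length]
        omega
      have key : ∀ v, N (run θ (pre θ n f q) v) ≤ 25 →
          N (run θ (pre θ n f q ++ W) v) ≤ 25 * 4 ^ (13 * n) := by
        intro v hv
        rw [run_append]
        refine (N_run_le _ _ _).trans ?_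
        rw [mul_comm]
        exact mul_le_mul hv (pow_le_pow_right₀ (by norm_num) hWl) (by positivity) (by norm_num)
      have hg := pre_good θ hθ hθ1 n hn f q
      exact ⟨key _ hg.1, key _ hg.2⟩

/-- the bi-infinite sequence attached to `q` blocks -/
noncomputable def pt (θ : ℝ) (n q : ℕ) (f : ℕ → Fin n → Bool) : ℤ → Bool :=
  fun i => if 0 ≤ i then (pre θ n f q).getD i.toNat false else false

theorem pt_mem (θ : ℝ) (hθ : 0 < θ) (hθ1 : θ ≤ 1 / 1000) (n : ℕ) (hn : n = ⌈1 / θ⌉₊)
    (q : ℕ) (f : ℕ → Fin n → Bool) :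
    pt θ n q f ∈ B θ (4 * (25 * 4 ^ (13 * n)) ^ 2 : ℝ) := by
  obtain ⟨C, hC⟩ : ∃ C : ℝ, C = 25 * 4 ^ (13 * n) := ⟨_, rfl⟩
  have hC1 : 1 ≤ C := by
    have h1 : (1 : ℝ) ≤ 4 ^ (13 * n) := one_le_pow₀ (by norm_num)
    linarith
  rw [← hC]
  apply mem_B
  · nlinarith
  · intro i hi
    unfold pt
    rw [if_neg (by omega)]
  · intro m k v
    obtain ⟨y, hy⟩ : ∃ y : ℕ → Bool, ∀ i, y i = (pre θ n f q).getD i false := ⟨_, fun i => rfl⟩
    have e : (fun k : ℕ => pt θ n q f ((m + k : ℕ) : ℤ)) = fun k => y (m + k) := by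
      funext k
      unfold pt
      rw [if_pos (by positivity), hy, Int.toNat_natCast]
    rw [e]
    have hbd : ∀ v, (∀ m, N (run θ ((pre θ n f q).take m) v) ≤ C) → ∀ m, N (orb θ y m v) ≤ C := by
      intro v hv m
      rcases le_total m (pre θ n f q).length with hm | hm
      · rw [orb_run θ _ y hy m hm]
        exact hv m
      · obtain ⟨b, rfl⟩ := Nat.exists_eq_add_of_le hm
        rw [orb_add, orb_false]
        · rw [orb_run θ _ y hy _ le_rfl]
          exact hv _
        · intro k _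
          rw [hy, List.getD_eq_default _ _ (by omega)]
    apply N_tail_le θ y C hC1
    · apply hbd
      intro m
      rw [hC]
      exact (pre_take θ hθ hθ1 n hn f q m).1
    · apply hbd
      intro m
      rw [hC]
      exact (pre_take θ hθ hθ1 n hn f q m).2

theorem h_lower (θ : ℝ) (hθ : 0 < θ) (hθ1 : θ ≤ 1 / 1000) :
    ((Real.log 2 / 13 : ℝ) : EReal) ≤ h θ := by
  obtain ⟨n, hn⟩ : ∃ n, n = ⌈1 / θ⌉₊ := ⟨_, rfl⟩
  have hn0 : 0 < n := by
    rw [hn]
    exact Nat.ceil_pos.2 (by positivity)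
  obtain ⟨κ, hκ⟩ : ∃ κ : ℕ, (κ : ℝ) = 4 * (25 * 4 ^ (13 * n)) ^ 2 :=
    ⟨4 * (25 * 4 ^ (13 * n)) ^ 2, by push_cast; ring⟩
  have h1 := coverEntropy_lower (13 * n) n (by omega) (by omega) (B θ κ)
    (fun q f => pt θ n q f) (fun q f => by rw [hκ]; exact pt_mem θ hθ hθ1 n hn q f)
    (fun q f a ha b => by
      show pt θ n q f _ = _
      unfold pt
      rw [if_pos (by positivity), Int.toNat_natCast]
      exact pre_get θ n f q a ha b)
  have h2 : (n * Real.log 2 / (13 * n : ℕ) : ℝ) = Real.log 2 / 13 := by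
    have : (n : ℝ) ≠ 0 := by exact_mod_cast hn0.ne'
    push_cast
    field_simp
  rw [h2] at h1
  exact h1.trans (le_iSup (fun κ : ℕ => coverEntropy shift (B θ κ)) κ)

theorem orb_zero_fst (y : ℕ → Bool) (n : ℕ) :
    (orb 0 y n (1, 0)) = (2 ^ ((Finset.range n).filter fun i => y i = true).card, 0) := by
  induction n with
  | zero => simp [orb]
  | succ n ih =>
    show st 0 (y n) (orb 0 y n (1, 0)) = _
    rw [ih, Finset.range_add_one, Finset.filter_insert]
    unfold st
    by_cases hb : y n = true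
    · simp only [hb, if_true]
      rw [Finset.card_insert_of_notMem (by simp), pow_succ]
      ext
      · simp only
        ring
      · simp
    · simp only [hb]
      ext <;> simp

theorem h_zero_le : h 0 ≤ 0 := by
  refine iSup_le fun κ => ?_
  apply coverEntropy_few κ
  intro x hx m n
  have h1 := hx m n 0 0
  have h2 := (fiberProd_orb 0 (fun k => x (k + m)) n).1
  rw [orb_zero_fst] at h2
  have h3 := congrArg Prod.fst h2
  simp only at h3
  rw [h3, abs_of_nonneg (by positivity)] at h1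
  by_contra hcon
  push Not at hcon
  have h4 : κ < 2 ^ ((Finset.range n).filter fun i : ℕ => x (i + m) = true).card :=
    lt_of_lt_of_le Nat.lt_two_pow_self (Nat.pow_le_pow_right (by norm_num) hcon.le)
  have h5 : (κ : ℝ) < 2 ^ ((Finset.range n).filter fun i : ℕ => x (i + m) = true).card := by
    exact_mod_cast h4
  linarith

theorem not_cont : ¬ ContinuousAt h 0 := by
  intro hc
  have h1 : Tendsto h (𝓝[>] 0) (𝓝 (h 0)) := hc.tendsto.mono_left nhdsWithin_le_nhds
  have h2 : ∀ᶠ θ in 𝓝[>] (0 : ℝ), ((Real.log 2 / 13 : ℝ) : EReal) ≤ h θ := by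
    filter_upwards [Ioc_mem_nhdsGT (show (0 : ℝ) < 1 / 1000 by norm_num)] with θ hθ
    exact h_lower θ hθ.1 hθ.2
  have h3 : ((Real.log 2 / 13 : ℝ) : EReal) ≤ h 0 := ge_of_tendsto h1 h2
  have h4 : ((Real.log 2 / 13 : ℝ) : EReal) ≤ 0 := h3.trans h_zero_le
  have h5 : Real.log 2 / 13 ≤ 0 := by exact_mod_cast h4
  have h6 := Real.log_pos (show (1 : ℝ) < 2 by norm_num)
  linarith

end Pool.Agent.Q67.RC
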