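import Mathlib

/-!
The return lemma for the cocycle generated by `diag (2, 1/2)` and a small rotation:
a pair of vectors of determinant one and length at most `5 * 2 ^ n` can be brought back to
length at most `5` by a word of length exactly `12 n`, `n = ⌈1 / θ⌉`.
-/

set_option autoImplicit false

namespace Pool.Agent.Q67.RC

open Real

/-- one step of the cocycle on vectors -/
noncomputable def st (θ : ℝ) (b : Bool) (v : ℝ × ℝ) : ℝ × ℝ :=
  if b = true then (2 * v.1, v.2 / 2)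
  else (cos θ * v.1 - sin θ * v.2, sin θ * v.1 + cos θ * v.2)

/-- the action of a finite word (first letter first) -/
noncomputable def run (θ : ℝ) (w : List Bool) (v : ℝ × ℝ) : ℝ × ℝ :=
  w.foldl (fun v b => st θ b v) v

/-- squared length -/
def N (v : ℝ × ℝ) : ℝ := v.1 ^ 2 + v.2 ^ 2

/-- determinant -/
def dt (v u : ℝ × ℝ) : ℝ := v.1 * u.2 - v.2 * u.1

theorem N_nonneg (v : ℝ × ℝ) : 0 ≤ N v := by unfold N; positivity

@[simp] theorem run_nil (θ : ℝ) (v : ℝ × ℝ) : run θ [] v = v := rfl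

theorem run_cons (θ : ℝ) (b : Bool) (w : List Bool) (v : ℝ × ℝ) :
    run θ (b :: w) v = run θ w (st θ b v) := rfl

theorem run_append (θ : ℝ) (u w : List Bool) (v : ℝ × ℝ) :
    run θ (u ++ w) v = run θ w (run θ u v) := by
  unfold run
  rw [List.foldl_append]

theorem N_st_false (θ : ℝ) (v : ℝ × ℝ) : N (st θ false v) = N v := by
  unfold N st
  simp only [Bool.false_eq_true, if_false]
  have := sin_sq_add_cos_sq θ
  nlinarith [this]

theorem N_st_le (θ : ℝ) (b : Bool) (v : ℝ × ℝ) : N (st θ b v) ≤ 4 * N v := by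
  cases b with
  | false =>
    rw [N_st_false]
    have := N_nonneg v
    linarith
  | true =>
    unfold N st
    simp only [if_true]
    nlinarith [sq_nonneg v.2]

theorem N_run_le (θ : ℝ) (w : List Bool) (v : ℝ × ℝ) : N (run θ w v) ≤ 4 ^ w.length * N v := by
  induction w generalizing v with
  | nil => simp
  | cons b w ih =>
    rw [run_cons]
    refine (ih _).trans ?_
    rw [List.length_cons, pow_succ]
    have h1 := N_st_le θ b v
    have h2 : (0 : ℝ) ≤ 4 ^ w.length := by positivity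
    nlinarith

theorem N_run_rep (θ : ℝ) (j : ℕ) (v : ℝ × ℝ) : N (run θ (List.replicate j false) v) = N v := by
  induction j generalizing v with
  | zero => simp
  | succ j ih =>
    rw [List.replicate_succ, run_cons, ih, N_st_false]

theorem dt_st (θ : ℝ) (b : Bool) (v u : ℝ × ℝ) : dt (st θ b v) (st θ b u) = dt v u := by
  have := sin_sq_add_cos_sq θ
  cases b with
  | false =>
    unfold dt st
    simp only [Bool.false_eq_true, if_false]
    linear_combination (v.1 * u.2 - v.2 * u.1) * this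
  | true =>
    unfold dt st
    simp only [if_true]
    ring

theorem dt_run (θ : ℝ) (w : List Bool) (v u : ℝ × ℝ) :
    dt (run θ w v) (run θ w u) = dt v u := by
  induction w generalizing v u with
  | nil => simp
  | cons b w ih => rw [run_cons, run_cons, ih, dt_st]

/-- linear combinations -/
def lc (a : ℝ) (v : ℝ × ℝ) (b : ℝ) (u : ℝ × ℝ) : ℝ × ℝ := (a * v.1 + b * u.1, a * v.2 + b * u.2)

theorem st_lc (θ : ℝ) (c : Bool) (a : ℝ) (v : ℝ × ℝ) (b : ℝ) (u : ℝ × ℝ) :
    st θ c (lc a v b u) = lc a (st θ c v) b (st θ c u) := by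
  cases c with
  | false =>
    unfold st lc
    simp only [Bool.false_eq_true, if_false]
    ext <;> simp only <;> ring
  | true =>
    unfold st lc
    simp only [if_true]
    ext <;> simp only <;> ring

theorem run_lc (θ : ℝ) (w : List Bool) (a : ℝ) (v : ℝ × ℝ) (b : ℝ) (u : ℝ × ℝ) :
    run θ w (lc a v b u) = lc a (run θ w v) b (run θ w u) := by
  induction w generalizing v u with
  | nil => simp
  | cons c w ih => rw [run_cons, run_cons, run_cons, st_lc, ih]

theorem N_lc_le (a : ℝ) (v : ℝ × ℝ) (b : ℝ) (u : ℝ × ℝ) :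
    N (lc a v b u) ≤ 2 * (a ^ 2 * N v + b ^ 2 * N u) := by
  unfold N lc
  simp only
  nlinarith [sq_nonneg (a * v.1 - b * u.1), sq_nonneg (a * v.2 - b * u.2)]

/-- the narrow cone to the right of the vertical axis -/
def cone (θ m : ℝ) (v : ℝ × ℝ) : Prop :=
  0 < v.2 ∧ 0 ≤ v.1 ∧ v.1 * cos θ < m * (sin θ * v.2)

theorem cone_down (θ : ℝ) (hc : 0 < cos θ) (hs : 0 < sin θ) (m : ℕ) (v : ℝ × ℝ)
    (hv : cone θ (m + 1 : ℕ) v) :
    ∃ j ≤ m, cone θ 1 (run θ (List.replicate j false) v) := by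
  induction m generalizing v with
  | zero =>
    refine ⟨0, le_rfl, ?_⟩
    simpa using hv
  | succ m ih =>
    obtain ⟨h1, h2, h3⟩ := hv
    by_cases h : v.1 * cos θ < sin θ * v.2
    · exact ⟨0, Nat.zero_le _, h1, h2, by simpa using h⟩
    · push Not at h
      have hst : st θ false v = (cos θ * v.1 - sin θ * v.2, sin θ * v.1 + cos θ * v.2) := by
        unfold st
        simp
      have hc' : cone θ (m + 1 : ℕ) (st θ false v) := by
        rw [hst]
        refine ⟨?_, ?_, ?_⟩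
        · show 0 < sin θ * v.1 + cos θ * v.2
          positivity
        · show 0 ≤ cos θ * v.1 - sin θ * v.2
          linarith
        · show (cos θ * v.1 - sin θ * v.2) * cos θ <
            ((m + 1 : ℕ) : ℝ) * (sin θ * (sin θ * v.1 + cos θ * v.2))
          push_cast at h3 ⊢
          have e1 : 0 ≤ ((m : ℝ) + 1) * (sin θ * (sin θ * v.1)) := by positivity
          nlinarith [mul_lt_mul_of_pos_right h3 hc]
      obtain ⟨j, hj, hj'⟩ := ih _ hc'
      refine ⟨j + 1, by omega, ?_⟩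
      rw [List.replicate_succ, run_cons]
      exact hj'

theorem round_step (θ : ℝ) (hθ : 0 < θ) (hc : 1 / 2 ≤ cos θ) (hs : 0 < sin θ) (v : ℝ × ℝ)
    (hv : cone θ 1 v) :
    ∃ w : List Bool, w.length ≤ 4 ∧ cone θ 1 (run θ w v) ∧
      N (run θ w v) ≤ (1 + 64 * θ ^ 2) / 4 * N v ∧ ∀ u, N (run θ w u) ≤ 4 * N u := by
  obtain ⟨h1, h2, h3⟩ := hv
  have hst : st θ true v = (2 * v.1, v.2 / 2) := by
    unfold st
    simp
  have hsl : sin θ ≤ θ := sin_le hθ.le
  have hc' : cone θ (3 + 1 : ℕ) (st θ true v) := by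
    rw [hst]
    refine ⟨?_, ?_, ?_⟩
    · show 0 < v.2 / 2
      positivity
    · show 0 ≤ 2 * v.1
      positivity
    · show 2 * v.1 * cos θ < ((3 + 1 : ℕ) : ℝ) * (sin θ * (v.2 / 2))
      push_cast
      nlinarith
  obtain ⟨j, hj, hj'⟩ := cone_down θ (by linarith) hs 3 _ hc'
  refine ⟨true :: List.replicate j false, ?_, ?_, ?_, ?_⟩
  · rw [List.length_cons, List.length_replicate]
    omega
  · rw [run_cons]
    exact hj'
  · rw [run_cons, N_run_rep, hst]
    have hx : v.1 ≤ 2 * θ * v.2 := by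
      have e1 : v.1 * (1 / 2) ≤ v.1 * cos θ := mul_le_mul_of_nonneg_left hc h2
      have e2 : sin θ * v.2 ≤ θ * v.2 := mul_le_mul_of_nonneg_right hsl h1.le
      linarith
    have hx2 : v.1 ^ 2 ≤ (2 * θ * v.2) ^ 2 := pow_le_pow_left₀ h2 hx 2
    unfold N
    simp only
    have e3 : 0 ≤ (1 + 64 * θ ^ 2) / 4 * v.1 ^ 2 := by positivity
    nlinarith
  · intro u
    rw [run_cons, N_run_rep]
    exact N_st_le θ true u

theorem rounds (θ : ℝ) (hθ : 0 < θ) (hc : 1 / 2 ≤ cos θ) (hs : 0 < sin θ) (k : ℕ) (v : ℝ × ℝ)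
    (hv : cone θ 1 v) :
    ∃ w : List Bool, w.length ≤ 4 * k ∧
      N (run θ w v) ≤ ((1 + 64 * θ ^ 2) / 4) ^ k * N v ∧ ∀ u, N (run θ w u) ≤ 4 ^ k * N u := by
  induction k generalizing v with
  | zero => exact ⟨[], by simp, by simp, by simp⟩
  | succ k ih =>
    obtain ⟨w, hw1, hw2, hw3, hw4⟩ := round_step θ hθ hc hs v hv
    obtain ⟨w', hw1', hw3', hw4'⟩ := ih _ hw2
    refine ⟨w ++ w', ?_, ?_, ?_⟩
    · rw [List.length_append]
      omega
    · rw [run_append]
      refine hw3'.trans ?_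
      have h0 : (0 : ℝ) ≤ ((1 + 64 * θ ^ 2) / 4) ^ k := by positivity
      calc ((1 + 64 * θ ^ 2) / 4) ^ k * N (run θ w v)
          ≤ ((1 + 64 * θ ^ 2) / 4) ^ k * ((1 + 64 * θ ^ 2) / 4 * N v) :=
            mul_le_mul_of_nonneg_left hw3 h0
        _ = _ := by ring
    · intro u
      rw [run_append]
      refine (hw4' _).trans ?_
      calc (4 : ℝ) ^ k * N (run θ w u) ≤ 4 ^ k * (4 * N u) :=
            mul_le_mul_of_nonneg_left (hw4 u) (by positivity)
        _ = _ := by ring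

theorem run_rep_polar (θ r φ : ℝ) (j : ℕ) :
    run θ (List.replicate j false) (r * cos φ, r * sin φ) =
      (r * cos (φ + j * θ), r * sin (φ + j * θ)) := by
  induction j generalizing φ with
  | zero => simp
  | succ j ih =>
    rw [List.replicate_succ, run_cons]
    have : st θ false (r * cos φ, r * sin φ) = (r * cos (φ + θ), r * sin (φ + θ)) := by
      unfold st
      simp only [Bool.false_eq_true, if_false, cos_add, sin_add]
      ext <;> simp only <;> ring
    rw [this, ih]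
    push_cast
    rw [show φ + θ + j * θ = φ + (j + 1) * θ by ring]

theorem align (θ : ℝ) (hθ : 0 < θ) (hθ1 : θ < 1) (v : ℝ × ℝ) (hv : 0 < N v) :
    ∃ j : ℕ, (j : ℝ) ≤ 2 * π / θ ∧ cone θ 1 (run θ (List.replicate j false) v) := by
  obtain ⟨z, hz⟩ : ∃ z : ℂ, z = ⟨v.1, v.2⟩ := ⟨_, rfl⟩
  obtain ⟨r, hr⟩ : ∃ r : ℝ, r = ‖z‖ := ⟨_, rfl⟩
  obtain ⟨φ, hφ⟩ : ∃ φ : ℝ, φ = Complex.arg z := ⟨_, rfl⟩
  have h1 : r * cos φ = v.1 := by
    rw [hr, hφ, Complex.norm_mul_cos_arg, hz]
  have h2 : r * sin φ = v.2 := by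
    rw [hr, hφ, Complex.norm_mul_sin_arg, hz]
  have hr0 : 0 < r := by
    rw [hr, norm_pos_iff]
    intro h0
    rw [h0] at hz
    have e1 : v.1 = 0 := by
      have := congrArg Complex.re hz
      simpa using this.symm
    have e2 : v.2 = 0 := by
      have := congrArg Complex.im hz
      simpa using this.symm
    unfold N at hv
    rw [e1, e2] at hv
    norm_num at hv
  have hvp : v = (r * cos φ, r * sin φ) := by
    ext
    · exact h1.symm
    · exact h2.symm
  have hφ1 : -π < φ := by rw [hφ]; exact Complex.neg_pi_lt_arg z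
  have hφ2 : φ ≤ π := by rw [hφ]; exact Complex.arg_le_pi z
  have hpi := pi_pos
  obtain ⟨T, hT1, hT2, hT3, hT4⟩ : ∃ T : ℝ, 0 ≤ T - φ ∧ T - φ < 2 * π ∧
      (∀ s, cos (T - s) = sin s) ∧ (∀ s, sin (T - s) = cos s) := by
    by_cases h : φ ≤ π / 2
    · refine ⟨π / 2, by linarith, by linarith, fun s => cos_pi_div_two_sub s,
        fun s => sin_pi_div_two_sub s⟩
    · push Not at h
      refine ⟨π / 2 + 2 * π, by linarith, by linarith, fun s => ?_, fun s => ?_⟩
      · rw [show π / 2 + 2 * π - s = π / 2 - s + 2 * π by ring, cos_add_two_pi,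
          cos_pi_div_two_sub]
      · rw [show π / 2 + 2 * π - s = π / 2 - s + 2 * π by ring, sin_add_two_pi,
          sin_pi_div_two_sub]
  obtain ⟨j, hj⟩ : ∃ j : ℕ, j = ⌊(T - φ) / θ⌋₊ := ⟨_, rfl⟩
  have hj1 : (j : ℝ) ≤ (T - φ) / θ := by
    rw [hj]
    exact Nat.floor_le (by positivity)
  have hj2 : (T - φ) / θ < j + 1 := by
    rw [hj]
    exact Nat.lt_floor_add_one _
  rw [le_div_iff₀ hθ] at hj1
  rw [div_lt_iff₀ hθ] at hj2
  refine ⟨j, ?_, ?_⟩
  · rw [le_div_iff₀ hθ]
    linarith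
  · rw [hvp, run_rep_polar]
    obtain ⟨s, hs⟩ : ∃ s : ℝ, s = T - φ - j * θ := ⟨_, rfl⟩
    have hs1 : 0 ≤ s := by rw [hs]; linarith
    have hs2 : s < θ := by rw [hs]; linarith
    have e1 : φ + j * θ = T - s := by rw [hs]; ring
    rw [e1, hT3, hT4]
    have hpi3 := pi_gt_three
    have hcs : 0 < cos s := cos_pos_of_mem_Ioo ⟨by linarith, by linarith⟩
    have hss : 0 ≤ sin s := sin_nonneg_of_nonneg_of_le_pi hs1 (by linarith)
    refine ⟨?_, ?_, ?_⟩
    · show 0 < r * cos s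
      positivity
    · show 0 ≤ r * sin s
      positivity
    · show r * sin s * cos θ < 1 * (sin θ * (r * cos s))
      have h3 : 0 < sin (θ - s) := sin_pos_of_pos_of_lt_pi (by linarith) (by linarith)
      rw [sin_sub] at h3
      have := mul_pos hr0 h3
      nlinarith

/-- the return lemma, with the first vector the longer one -/
theorem ret_aux (θ : ℝ) (hθ : 0 < θ) (hθ1 : θ ≤ 1 / 1000) (n : ℕ) (hn : n = ⌈1 / θ⌉₊)
    (v u : ℝ × ℝ) (hd : dt v u ^ 2 = 1) (huv : N u ≤ N v) (hv : N v ≤ 25 * 4 ^ n) :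
    ∃ w : List Bool, w.length = 12 * n ∧ N (run θ w v) ≤ 25 ∧ N (run θ w u) ≤ 25 := by
  have hn1 : 1 / θ ≤ n := by rw [hn]; exact Nat.le_ceil _
  have hn2 : (n : ℝ) < 1 / θ + 1 := by
    rw [hn]
    exact Nat.ceil_lt_add_one (by positivity)
  have hn3 : (1000 : ℝ) ≤ n := by
    refine le_trans ?_ hn1
    rw [le_div_iff₀ hθ]
    linarith
  have hn3' : 1000 ≤ n := by exact_mod_cast hn3
  have hlag : dt v u ^ 2 + (v.1 * u.1 + v.2 * u.2) ^ 2 = N v * N u := by
    unfold dt N
    ring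
  have hNv0 := N_nonneg v
  have hNu0 := N_nonneg u
  have hNv1 : 1 ≤ N v := by
    by_contra h
    push Not at h
    nlinarith [sq_nonneg (v.1 * u.1 + v.2 * u.2)]
  have hNv : 0 < N v := by linarith
  -- trigonometry
  have hs : 0 < sin θ := sin_pos_of_pos_of_lt_pi hθ (by linarith [pi_gt_three])
  have hc : 1 / 2 ≤ cos θ := by
    have := one_sub_sq_div_two_le_cos (x := θ)
    nlinarith
  -- alignment
  obtain ⟨j, hj1, hj2⟩ := align θ hθ (by linarith) v hNv
  have hj3 : j ≤ 7 * n := by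
    have h1 : (j : ℝ) ≤ 7 * n := by
      have h2 : 2 * π / θ = 2 * π * (1 / θ) := by ring
      rw [h2] at hj1
      have h3 := pi_lt_d2
      have h4 : 0 < 1 / θ := by positivity
      have h5 : 2 * π * (1 / θ) ≤ 7 * (1 / θ) := by
        apply mul_le_mul_of_nonneg_right _ h4.le
        linarith
      linarith
    exact_mod_cast h1
  obtain ⟨v', hv'⟩ : ∃ v', v' = run θ (List.replicate j false) v := ⟨_, rfl⟩
  have hNv' : N v' = N v := by rw [hv', N_run_rep]
  -- number of rounds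
  obtain ⟨k, hk1, hk2⟩ := exists_nat_pow_near (x := N v) (y := (4 : ℝ)) hNv1 (by norm_num)
  have hk3 : k ≤ n + 2 := by
    by_contra h
    push Not at h
    have h1 : (4 : ℝ) ^ (n + 3) ≤ 4 ^ k := pow_le_pow_right₀ (by norm_num) (by omega)
    have h2 : (4 : ℝ) ^ (n + 3) = 64 * 4 ^ n := by ring
    have h3 : (0 : ℝ) < 4 ^ n := by positivity
    linarith
  obtain ⟨w, hw1, hw2, hw3⟩ := rounds θ hθ hc hs k v' (by rw [hv']; exact hj2)
  -- the growth factor
  have hgrow : (1 + 64 * θ ^ 2) ^ k ≤ 5 / 4 := by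
    have h1 : (1 + 64 * θ ^ 2) ^ k ≤ Real.exp (k * (64 * θ ^ 2)) := by
      rw [Real.exp_nat_mul]
      apply pow_le_pow_left₀ (by positivity)
      have := Real.add_one_le_exp (64 * θ ^ 2)
      linarith
    have h2 : (k : ℝ) * (64 * θ ^ 2) ≤ 1 / 10 := by
      have h3 : (k : ℝ) ≤ n + 2 := by exact_mod_cast hk3
      have h4 : (k : ℝ) ≤ 1 / θ + 3 := by linarith
      have h5 : (k : ℝ) * (64 * θ ^ 2) ≤ (1 / θ + 3) * (64 * θ ^ 2) :=
        mul_le_mul_of_nonneg_right h4 (by positivity)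
      have h6 : (1 / θ + 3) * (64 * θ ^ 2) = 64 * θ + 192 * θ ^ 2 := by
        field_simp
        ring
      nlinarith
    have h7 : Real.exp (k * (64 * θ ^ 2)) ≤ Real.exp (1 / 10) := Real.exp_le_exp.2 h2
    have h8 : Real.exp (1 / 10) ≤ 1 / (1 - 1 / 10) :=
      Real.exp_bound_div_one_sub_of_interval (by norm_num) (by norm_num)
    refine h1.trans (h7.trans (h8.trans (by norm_num)))
  have hfin1 : N (run θ w v') ≤ 5 := by
    refine hw2.trans ?_
    rw [div_pow, hNv']
    have h4k : (0 : ℝ) < 4 ^ k := by positivity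
    rw [div_mul_eq_mul_div, div_le_iff₀ h4k]
    have h1 : N v ≤ 4 * 4 ^ k := by
      have : (4 : ℝ) ^ (k + 1) = 4 * 4 ^ k := by ring
      linarith
    have h2 : 0 ≤ (1 + 64 * θ ^ 2) ^ k := by positivity
    calc (1 + 64 * θ ^ 2) ^ k * N v ≤ 5 / 4 * (4 * 4 ^ k) :=
          mul_le_mul hgrow h1 hNv.le (by norm_num)
      _ = 5 * 4 ^ k := by ring
  -- decomposition of the other vector
  obtain ⟨a, ha⟩ : ∃ a : ℝ, a = (v.1 * u.1 + v.2 * u.2) / N v := ⟨_, rfl⟩
  have haN : a * N v = v.1 * u.1 + v.2 * u.2 := by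
    rw [ha]
    field_simp
  have ha2 : a ^ 2 ≤ 1 := by
    have h1 : (a * N v) ^ 2 ≤ N v * N v := by
      rw [haN]
      nlinarith [mul_le_mul_of_nonneg_left huv hNv.le]
    have h2 : a ^ 2 * (N v * N v) ≤ 1 * (N v * N v) := by
      nlinarith
    exact le_of_mul_le_mul_right h2 (by positivity)
  obtain ⟨p, hp⟩ : ∃ p : ℝ × ℝ, p = lc 1 u (-a) v := ⟨_, rfl⟩
  have hup : u = lc a v 1 p := by
    rw [hp]
    unfold lc
    ext <;> simp only <;> ring
  have hNp : N p * N v = 1 := by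
    have e1 : N p = N u - 2 * a * (v.1 * u.1 + v.2 * u.2) + a ^ 2 * N v := by
      rw [hp]
      unfold N lc
      simp only
      ring
    rw [e1, ← haN]
    have e2 : 1 + (a * N v) ^ 2 = N v * N u := by
      rw [haN, ← hlag, hd]
    linear_combination -e2
  have hNp0 := N_nonneg p
  have h4kNp : 4 ^ k * N p ≤ 1 := by
    calc 4 ^ k * N p ≤ N v * N p := mul_le_mul_of_nonneg_right hk1 hNp0
      _ = 1 := by rw [mul_comm]; exact hNp
  obtain ⟨W, hW⟩ : ∃ W : List Bool, W = List.replicate j false ++ w := ⟨_, rfl⟩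
  have hWv : N (run θ W v) ≤ 5 := by
    rw [hW, run_append, ← hv']
    exact hfin1
  have hWp : N (run θ W p) ≤ 1 := by
    rw [hW, run_append]
    refine (hw3 _).trans ?_
    rw [N_run_rep]
    exact h4kNp
  have hWu : N (run θ W u) ≤ 12 := by
    rw [hup, run_lc]
    refine (N_lc_le _ _ _ _).trans ?_
    have h1 : a ^ 2 * N (run θ W v) ≤ 1 * 5 :=
      mul_le_mul ha2 hWv (N_nonneg _) (by norm_num)
    linarith
  have hWlen : W.length ≤ 12 * n := by
    rw [hW, List.length_append, List.length_replicate]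
    omega
  refine ⟨W ++ List.replicate (12 * n - W.length) false, ?_, ?_, ?_⟩
  · rw [List.length_append, List.length_replicate]
    omega
  · rw [run_append, N_run_rep]
    linarith
  · rw [run_append, N_run_rep]
    linarith

theorem ret (θ : ℝ) (hθ : 0 < θ) (hθ1 : θ ≤ 1 / 1000) (n : ℕ) (hn : n = ⌈1 / θ⌉₊)
    (v u : ℝ × ℝ) (hd : dt v u = 1) (hv : N v ≤ 25 * 4 ^ n) (hu : N u ≤ 25 * 4 ^ n) :
    ∃ w : List Bool, w.length = 12 * n ∧ N (run θ w v) ≤ 25 ∧ N (run θ w u) ≤ 25 := by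
  rcases le_total (N u) (N v) with h | h
  · exact ret_aux θ hθ hθ1 n hn v u (by rw [hd]; norm_num) h hv
  · have hd' : dt u v = -1 := by
      rw [← hd]
      unfold dt
      ring
    obtain ⟨w, h1, h2, h3⟩ := ret_aux θ hθ hθ1 n hn u v (by rw [hd']; norm_num) h hu
    exact ⟨w, h1, h3, h2⟩

end Pool.Agent.Q67.RC
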